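import Pool.Agent.H45.AD.Stm4

set_option autoImplicit false

namespace Pool.Agent.H56.AD.CT

open Pool.Agent.H45.AD

/-- the solutions for a given coprime second coordinate -/
def XF (N q : ℕ) (a : ℤ) (B : ℕ) : Finset ℕ :=
  (Finset.range B).filter fun x : ℕ => (q : ℤ) ^ 2 ∣ (x : ℤ) ^ 2 - a ∧ Nat.Coprime x q ∧
    a + N * (q : ℤ) ^ 2 < (x : ℤ) ^ 2 ∧ (x : ℤ) ^ 2 ≤ a + 2 * N * (q : ℤ) ^ 2

theorem one (hRO : StmtRO) (N q : ℕ) (hq : 1 ≤ q) (a : ℤ) (B : ℕ) :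
    ((XF N q a B).card : ℝ) ≤ 2 * ((q ^ 2).divisors.card : ℝ) * (√(N : ℝ) / q + 1) := by
  classical
  set X := XF N q a B with hX
  set R := (Finset.range (q ^ 2)).filter fun x : ℕ => (q : ℤ) ^ 2 ∣ (x : ℤ) ^ 2 - a ∧
      Nat.Coprime x q with hR
  have hq2 : 0 < q ^ 2 := by positivity
  have hmap : ∀ x ∈ X, x % q ^ 2 ∈ R := by
    intro x hx
    obtain ⟨_, h1, h2, _, _⟩ := Finset.mem_filter.1 hx
    rw [hR, Finset.mem_filter, Finset.mem_range]
    refine ⟨Nat.mod_lt _ hq2, ?_, ?_⟩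
    · have h3 : ((q : ℤ) ^ 2) ∣ (x : ℤ) - ((x % q ^ 2 : ℕ) : ℤ) := by
        push_cast
        exact Int.dvd_self_sub_emod
      have h4 : ((q : ℤ) ^ 2) ∣ (x : ℤ) ^ 2 - ((x % q ^ 2 : ℕ) : ℤ) ^ 2 := by
        have e : (x : ℤ) ^ 2 - ((x % q ^ 2 : ℕ) : ℤ) ^ 2 =
            ((x : ℤ) - ((x % q ^ 2 : ℕ) : ℤ)) * ((x : ℤ) + ((x % q ^ 2 : ℕ) : ℤ)) := by ring
        rw [e]
        exact Dvd.dvd.mul_right h3 _
      have h5 := dvd_sub h1 h4
      have e : (x : ℤ) ^ 2 - a - ((x : ℤ) ^ 2 - ((x % q ^ 2 : ℕ) : ℤ) ^ 2) =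
        ((x % q ^ 2 : ℕ) : ℤ) ^ 2 - a := by ring
      rwa [e] at h5
    · have h6 : Nat.Coprime x (q ^ 2) := Nat.Coprime.pow_right 2 h2
      have h7 : Nat.Coprime (x % q ^ 2) (q ^ 2) := by
        have e := Nat.gcd_rec (q ^ 2) x
        unfold Nat.Coprime
        rw [← e, Nat.gcd_comm]
        exact h6
      exact Nat.Coprime.coprime_dvd_right (dvd_pow_self q two_ne_zero) h7
  have hfib : ∀ r ∈ R, (((X.filter fun x => x % q ^ 2 = r).card : ℕ) : ℝ) ≤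
      √(N : ℝ) / q + 1 := by
    intro r _
    set F := X.filter fun x => x % q ^ 2 = r with hF
    have hnn : 0 ≤ √(N : ℝ) / q := by positivity
    rcases F.eq_empty_or_nonempty with hE | hne
    · rw [hE, Finset.card_empty, Nat.cast_zero]
      linarith
    set m := F.min' hne with hm
    have hmF : m ∈ F := F.min'_mem hne
    obtain ⟨hmX, hmr⟩ := Finset.mem_filter.1 hmF
    obtain ⟨_, _, _, hm1, hm2⟩ := Finset.mem_filter.1 hmX
    have hprop : ∀ x ∈ F, m ≤ x ∧ q ^ 2 ∣ x - m ∧ ((x - m : ℕ) : ℝ) < √(N : ℝ) * q := by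
      intro x hx
      have hle : m ≤ x := F.min'_le x hx
      obtain ⟨hxX, hxr⟩ := Finset.mem_filter.1 hx
      obtain ⟨_, _, _, hx1, hx2⟩ := Finset.mem_filter.1 hxX
      refine ⟨hle, (Nat.modEq_iff_dvd' hle).1 (hmr.trans hxr.symm), ?_⟩
      obtain ⟨k, rfl⟩ := Nat.exists_eq_add_of_le hle
      have h1 : (k : ℤ) ^ 2 < N * (q : ℤ) ^ 2 := by
        push_cast at hx2
        have h0 : (0 : ℤ) ≤ (m : ℤ) * k := by positivity
        nlinarith
      have h2 : (k : ℝ) ^ 2 < N * (q : ℝ) ^ 2 := by exact_mod_cast h1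
      have h3 : ((m + k - m : ℕ) : ℝ) = k := by
        rw [Nat.add_sub_cancel_left]
      rw [h3]
      apply lt_of_pow_lt_pow_left₀ 2 (by positivity)
      rw [mul_pow, Real.sq_sqrt (Nat.cast_nonneg N)]
      exact h2
    set K := ⌊√(N : ℝ) / q⌋₊ with hK
    have hcard : F.card ≤ (Finset.range (K + 1)).card := by
      apply Finset.card_le_card_of_injOn (fun x => (x - m) / q ^ 2)
      · intro x hx
        obtain ⟨hle, hd, hlt⟩ := hprop x hx
        rw [Finset.coe_range, Set.mem_Iio, Nat.lt_succ_iff]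
        apply Nat.le_floor
        obtain ⟨k, hk⟩ := hd
        show (((x - m) / q ^ 2 : ℕ) : ℝ) ≤ _
        rw [hk, Nat.mul_div_cancel_left k hq2]
        rw [hk] at hlt
        have hq0 : (0 : ℝ) < q := by exact_mod_cast hq
        rw [le_div_iff₀ hq0]
        push_cast at hlt
        have : (q : ℝ) * ((k : ℝ) * q) < q * √(N : ℝ) := by nlinarith
        exact (lt_of_mul_lt_mul_left this hq0.le).le
      · intro x hx y hy hxy
        obtain ⟨hle, hd, _⟩ := hprop x hx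
        obtain ⟨hle', hd', _⟩ := hprop y hy
        have h1 : (x - m) / q ^ 2 = (y - m) / q ^ 2 := hxy
        have h2 := Nat.div_mul_cancel hd
        have h3 := Nat.div_mul_cancel hd'
        rw [h1, h3] at h2
        omega
    rw [Finset.card_range] at hcard
    calc ((F.card : ℕ) : ℝ) ≤ ((K + 1 : ℕ) : ℝ) := by exact_mod_cast hcard
      _ = (K : ℝ) + 1 := by push_cast; ring
      _ ≤ √(N : ℝ) / q + 1 := by
        have := Nat.floor_le hnn
        linarith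
  have h1 : ((X.card : ℕ) : ℝ) = ∑ r ∈ R, (((X.filter fun x => x % q ^ 2 = r).card : ℕ) : ℝ) := by
    rw [Finset.card_eq_sum_card_fiberwise hmap]
    push_cast
    rfl
  rw [h1]
  calc ∑ r ∈ R, (((X.filter fun x => x % q ^ 2 = r).card : ℕ) : ℝ) ≤
        ∑ _r ∈ R, (√(N : ℝ) / q + 1) := Finset.sum_le_sum hfib
    _ = (R.card : ℝ) * (√(N : ℝ) / q + 1) := by
        rw [Finset.sum_const, nsmul_eq_mul]
    _ ≤ 2 * ((q ^ 2).divisors.card : ℝ) * (√(N : ℝ) / q + 1) := by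
        apply mul_le_mul_of_nonneg_right _ (by positivity)
        exact_mod_cast hRO q a hq

theorem harm (V : ℕ) : ∑ y ∈ Finset.Icc 1 V, (1 : ℝ) / y ≤ 1 + Real.log V := by
  have h := harmonic_le_one_add_log V
  rw [harmonic_eq_sum_Icc] at h
  push_cast at h
  simpa [one_div] using h

theorem t (hRO : StmtRO) (hDV : StmtDV) : StmtCT := by
  classical
  intro ε hε
  obtain ⟨C₁, hC₁, hD₁⟩ := hDV ε hε
  obtain ⟨C₂, hC₂, hD₂⟩ := hDV (ε / 4) (by positivity)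
  refine ⟨C₁ * (2 * C₂) * (1 + 2 / ε), ?_, ?_⟩
  · have h1 : (1 : ℝ) ≤ C₁ * (2 * C₂) := by nlinarith
    have h2 : (0 : ℝ) < 2 / ε := by positivity
    nlinarith
  intro N V hN hV a ha
  set B : ℕ := a.natAbs + 2 * N * V ^ 2 + 1 with hB
  set T : Finset (ℤ × ℤ) := (a.natAbs.divisors ×ˢ Finset.Icc 1 V).biUnion
    (fun w => (XF N w.2 (a / (w.1 : ℤ) ^ 2) B).image
      (fun x => (((w.1 * x : ℕ) : ℤ), ((w.1 * w.2 : ℕ) : ℤ)))) with hT
  have hsub : {w : ℤ × ℤ | 0 ≤ w.1 ∧ 1 ≤ w.2 ∧ w.2 ≤ V ∧ ∃ d : ℤ, N < d ∧ d ≤ 2 * N ∧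
      w.1 ^ 2 - d * w.2 ^ 2 = a} ⊆ (T : Set (ℤ × ℤ)) := by
    rintro ⟨x, y⟩ ⟨hx0, hy1, hyV, d, hd1, hd2, heq⟩
    simp only at hx0 hy1 hyV heq
    lift x to ℕ using hx0
    lift y to ℕ using (by omega)
    have hy1' : 1 ≤ y := by exact_mod_cast hy1
    have hyV' : y ≤ V := by exact_mod_cast hyV
    set g := Nat.gcd x y with hg
    have hg0 : 0 < g := Nat.gcd_pos_of_pos_right _ hy1'
    obtain ⟨x', hx'⟩ := Nat.gcd_dvd_left x y
    obtain ⟨y', hy'⟩ := Nat.gcd_dvd_right x y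
    rw [← hg] at hx' hy'
    have hco : Nat.Coprime x' y' := by
      have := Nat.coprime_div_gcd_div_gcd (m := x) (n := y) hg0
      rw [← hg] at this
      have e1 : x / g = x' := by
        conv_lhs => rw [hx']
        exact Nat.mul_div_cancel_left _ hg0
      have e2 : y / g = y' := by
        conv_lhs => rw [hy']
        exact Nat.mul_div_cancel_left _ hg0
      rwa [e1, e2] at this
    have hy'1 : 1 ≤ y' := by
      rcases Nat.eq_zero_or_pos y' with h | h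
      · rw [h, mul_zero] at hy'; omega
      · exact h
    have hy'V : y' ≤ V := by
      have : y' ≤ g * y' := Nat.le_mul_of_pos_left _ hg0
      omega
    have haeq : a = (g : ℤ) ^ 2 * ((x' : ℤ) ^ 2 - d * (y' : ℤ) ^ 2) := by
      rw [← heq]
      have e1 : (x : ℤ) = g * x' := by exact_mod_cast hx'
      have e2 : (y : ℤ) = g * y' := by exact_mod_cast hy'
      rw [e1, e2]
      ring
    have hg0' : (0 : ℤ) < (g : ℤ) ^ 2 := by positivity
    have hdiv : a / (g : ℤ) ^ 2 = (x' : ℤ) ^ 2 - d * (y' : ℤ) ^ 2 := by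
      conv_lhs => rw [haeq]
      exact Int.mul_ediv_cancel_left _ hg0'.ne'
    have hgd : g ∈ a.natAbs.divisors := by
      rw [Nat.mem_divisors]
      refine ⟨?_, by simpa using ha⟩
      rw [← Int.natCast_dvd]
      rw [haeq]
      exact Dvd.dvd.mul_right (dvd_pow_self _ two_ne_zero) _
    have hy2 : (1 : ℤ) ≤ (y' : ℤ) ^ 2 := by
      have : (1 : ℤ) ≤ y' := by exact_mod_cast hy'1
      nlinarith
    have hlow : a / (g : ℤ) ^ 2 + N * (y' : ℤ) ^ 2 < (x' : ℤ) ^ 2 := by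
      rw [hdiv]; nlinarith
    have hupp : (x' : ℤ) ^ 2 ≤ a / (g : ℤ) ^ 2 + 2 * N * (y' : ℤ) ^ 2 := by
      rw [hdiv]; nlinarith
    have hxB : x' < B := by
      have h1 : a / (g : ℤ) ^ 2 ≤ a.natAbs := by
        have : a / (g : ℤ) ^ 2 ≤ |a| := by
          calc a / (g : ℤ) ^ 2 ≤ |a| / (g : ℤ) ^ 2 := Int.ediv_le_ediv hg0' (le_abs_self a)
            _ ≤ |a| := Int.ediv_le_self _ (abs_nonneg a)
        rwa [Int.abs_eq_natAbs] at this
      have h2 : (y' : ℤ) ^ 2 ≤ (V : ℤ) ^ 2 := by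
        have : (y' : ℤ) ≤ V := by exact_mod_cast hy'V
        have h0 : (0 : ℤ) ≤ y' := by positivity
        nlinarith
      have h3 : (x' : ℤ) ≤ (x' : ℤ) ^ 2 := by
        rcases Nat.eq_zero_or_pos x' with h | h
        · rw [h]; simp
        · have : (1 : ℤ) ≤ x' := by exact_mod_cast h
          nlinarith
      have hN0 : (0 : ℤ) ≤ N := by positivity
      have h5 : 2 * (N : ℤ) * (y' : ℤ) ^ 2 ≤ 2 * N * (V : ℤ) ^ 2 :=
        mul_le_mul_of_nonneg_left h2 (by positivity)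
      have h6 : ((B : ℕ) : ℤ) = ((a.natAbs : ℕ) : ℤ) + 2 * N * (V : ℤ) ^ 2 + 1 := by
        rw [hB, Nat.cast_add, Nat.cast_add, Nat.cast_mul, Nat.cast_mul, Nat.cast_pow,
          Nat.cast_one, Nat.cast_ofNat]
      have h4 : (x' : ℤ) < ((B : ℕ) : ℤ) := by
        rw [h6]
        linarith
      exact_mod_cast h4
    rw [hT, Finset.mem_coe, Finset.mem_biUnion]
    refine ⟨(g, y'), Finset.mem_product.2 ⟨hgd, Finset.mem_Icc.2 ⟨hy'1, hy'V⟩⟩, ?_⟩
    rw [Finset.mem_image]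
    refine ⟨x', ?_, ?_⟩
    · unfold XF
      rw [Finset.mem_filter, Finset.mem_range]
      refine ⟨hxB, ?_, hco, hlow, hupp⟩
      simp only
      rw [hdiv]
      exact ⟨d, by ring⟩
    · simp only
      rw [← hx', ← hy']
  have hcard : (({w : ℤ × ℤ | 0 ≤ w.1 ∧ 1 ≤ w.2 ∧ w.2 ≤ V ∧ ∃ d : ℤ, N < d ∧ d ≤ 2 * N ∧
      w.1 ^ 2 - d * w.2 ^ 2 = a}.ncard : ℕ) : ℝ) ≤ (T.card : ℝ) := by
    have := Set.ncard_le_ncard hsub (Finset.finite_toSet T)
    rw [Set.ncard_coe_finset] at this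
    exact_mod_cast this
  refine hcard.trans ?_
  have hV1 : (1 : ℝ) ≤ V := by exact_mod_cast hV
  have ha1 : (1 : ℝ) ≤ |(a : ℝ)| := by
    have : (1 : ℤ) ≤ |a| := Int.one_le_abs ha
    exact_mod_cast this
  -- the bound for one second coordinate
  have hq : ∀ g : ℕ, ∀ y ∈ Finset.Icc 1 V, ((XF N y (a / (g : ℤ) ^ 2) B).card : ℝ) ≤
      2 * C₂ * (V : ℝ) ^ (ε / 2) * (√(N : ℝ) * (1 / (y : ℝ)) + 1) := by
    intro g y hy
    obtain ⟨hy1, hyV⟩ := Finset.mem_Icc.1 hy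
    refine (one hRO N y hy1 _ B).trans ?_
    have h1 : ((y ^ 2).divisors.card : ℝ) ≤ C₂ * (V : ℝ) ^ (ε / 2) := by
      refine (hD₂ (y ^ 2) (by nlinarith)).trans ?_
      apply mul_le_mul_of_nonneg_left _ (by linarith)
      have h2 : (((y ^ 2 : ℕ) : ℝ)) ^ (ε / 4) = (y : ℝ) ^ (ε / 2) := by
        push_cast
        rw [← Real.rpow_natCast (y : ℝ) 2, ← Real.rpow_mul (Nat.cast_nonneg y)]
        congr 1
        push_cast
        ring
      rw [h2]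
      exact Real.rpow_le_rpow (Nat.cast_nonneg y) (by exact_mod_cast hyV) (by positivity)
    have h3 : √(N : ℝ) / y + 1 = √(N : ℝ) * (1 / (y : ℝ)) + 1 := by ring
    rw [h3]
    apply mul_le_mul_of_nonneg_right _ (by positivity)
    linarith
  have h1 : (T.card : ℝ) ≤ ∑ w ∈ a.natAbs.divisors ×ˢ Finset.Icc 1 V,
      2 * C₂ * (V : ℝ) ^ (ε / 2) * (√(N : ℝ) * (1 / (w.2 : ℝ)) + 1) := by
    have h2 : (T.card : ℝ) ≤ ∑ w ∈ a.natAbs.divisors ×ˢ Finset.Icc 1 V,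
        (((XF N w.2 (a / (w.1 : ℤ) ^ 2) B).card : ℕ) : ℝ) := by
      have h3 : T.card ≤ ∑ w ∈ a.natAbs.divisors ×ˢ Finset.Icc 1 V,
          (XF N w.2 (a / (w.1 : ℤ) ^ 2) B).card := by
        rw [hT]
        refine Finset.card_biUnion_le.trans ?_
        exact Finset.sum_le_sum fun w _ => Finset.card_image_le
      exact_mod_cast h3
    refine h2.trans (Finset.sum_le_sum fun w hw => ?_)
    exact hq w.1 w.2 (Finset.mem_product.1 hw).2
  refine h1.trans ?_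
  rw [Finset.sum_product]
  show ∑ _x ∈ a.natAbs.divisors, ∑ y ∈ Finset.Icc 1 V,
    2 * C₂ * (V : ℝ) ^ (ε / 2) * (√(N : ℝ) * (1 / (y : ℝ)) + 1) ≤ _
  rw [Finset.sum_const, nsmul_eq_mul, ← Finset.mul_sum,
    Finset.sum_add_distrib, ← Finset.mul_sum, Finset.sum_const, Nat.card_Icc, nsmul_eq_mul, mul_one,
    Nat.add_sub_cancel]
  have h2 : ((a.natAbs.divisors.card : ℕ) : ℝ) ≤ C₁ * |(a : ℝ)| ^ ε := by
    have h3 := hD₁ a.natAbs (Int.natAbs_pos.2 ha)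
    have h4 : ((a.natAbs : ℕ) : ℝ) = |(a : ℝ)| := by
      rw [Nat.cast_natAbs]; push_cast; rfl
    rwa [h4] at h3
  have h3 := harm V
  have h4 : 1 + Real.log V ≤ (1 + 2 / ε) * (V : ℝ) ^ (ε / 2) := by
    have h5 := Real.log_le_rpow_div (Nat.cast_nonneg V : (0 : ℝ) ≤ V) (half_pos hε)
    have h6 : (1 : ℝ) ≤ (V : ℝ) ^ (ε / 2) := Real.one_le_rpow hV1 (by positivity)
    have h7 : (V : ℝ) ^ (ε / 2) / (ε / 2) = 2 / ε * (V : ℝ) ^ (ε / 2) := by
      field_simp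
    rw [h7] at h5
    linarith
  have hW : (1 : ℝ) ≤ (1 + 2 / ε) * (V : ℝ) ^ (ε / 2) := by
    have h6 : (1 : ℝ) ≤ (V : ℝ) ^ (ε / 2) := Real.one_le_rpow hV1 (by positivity)
    have h8 : 0 < 2 / ε := by positivity
    nlinarith
  have hs : 0 ≤ √(N : ℝ) := Real.sqrt_nonneg _
  have h5 : √(N : ℝ) * ∑ y ∈ Finset.Icc 1 V, (1 : ℝ) / y + V ≤
      (1 + 2 / ε) * (V : ℝ) ^ (ε / 2) * (√(N : ℝ) + V) := by
    have h6 : √(N : ℝ) * ∑ y ∈ Finset.Icc 1 V, (1 : ℝ) / y ≤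
        √(N : ℝ) * ((1 + 2 / ε) * (V : ℝ) ^ (ε / 2)) :=
      mul_le_mul_of_nonneg_left (h3.trans h4) hs
    nlinarith
  have hVV : (V : ℝ) ^ (ε / 2) * (V : ℝ) ^ (ε / 2) = (V : ℝ) ^ ε := by
    rw [← Real.rpow_add (by linarith)]
    congr 1
    ring
  have hprod : (|(a : ℝ)| * V) ^ ε = |(a : ℝ)| ^ ε * (V : ℝ) ^ ε :=
    Real.mul_rpow (abs_nonneg _) (by linarith)
  calc ((a.natAbs.divisors.card : ℕ) : ℝ) * (2 * C₂ * (V : ℝ) ^ (ε / 2) *
        (√(N : ℝ) * ∑ y ∈ Finset.Icc 1 V, (1 : ℝ) / y + V)) ≤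
        (C₁ * |(a : ℝ)| ^ ε) * (2 * C₂ * (V : ℝ) ^ (ε / 2) *
          ((1 + 2 / ε) * (V : ℝ) ^ (ε / 2) * (√(N : ℝ) + V))) := by
        apply mul_le_mul h2 _ _ _
        · apply mul_le_mul_of_nonneg_left h5
          positivity
        · apply mul_nonneg (by positivity)
          apply add_nonneg _ (by positivity)
          exact mul_nonneg hs (Finset.sum_nonneg fun y _ => by positivity)
        · positivity
    _ = C₁ * (2 * C₂) * (1 + 2 / ε) * (|(a : ℝ)| ^ ε * ((V : ℝ) ^ (ε / 2) * (V : ℝ) ^ (ε / 2))) *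
          (√(N : ℝ) + V) := by ring
    _ = C₁ * (2 * C₂) * (1 + 2 / ε) * (|(a : ℝ)| * V) ^ ε * (√(N : ℝ) + V) := by
        rw [hVV, hprod]

end Pool.Agent.H56.AD.CT
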