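import Pool.Agent.H45.AD.Stm4

set_option autoImplicit false

namespace Pool.Agent.H56.AD.DV

open Pool.Agent.H45.AD Real

/-- the divisor bound -/
theorem t : StmtDV := by
  intro ε hε
  set K : ℝ := 1 + 2 / ε with hK
  have hK1 : 1 ≤ K := by
    have : 0 < 2 / ε := by positivity
    linarith
  set P : ℕ := ⌈(2 : ℝ) ^ (1 / ε)⌉₊ with hP
  refine ⟨K ^ P, one_le_pow₀ hK1, ?_⟩
  intro n hn
  have hn0 : n ≠ 0 := by omega
  rw [Nat.card_divisors hn0]
  have key : ∀ p ∈ n.primeFactors, ((n.factorization p + 1 : ℕ) : ℝ) ≤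
      (if p < P then K else 1) * ((p : ℝ) ^ (n.factorization p)) ^ ε := by
    intro p hp
    have hpp : p.Prime := Nat.prime_of_mem_primeFactors hp
    have hp2 : (2 : ℝ) ≤ p := by exact_mod_cast hpp.two_le
    set a := n.factorization p with ha
    have hswap : ((p : ℝ) ^ a) ^ ε = ((p : ℝ) ^ ε) ^ a := by
      rw [← Real.rpow_natCast ((p : ℝ) ^ ε) a, ← Real.rpow_mul (by positivity),
        ← Real.rpow_natCast (p : ℝ) a, ← Real.rpow_mul (by positivity), mul_comm]
    rw [hswap]
    by_cases hlt : p < P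
    · rw [if_pos hlt]
      have h2 : (2 : ℝ) ^ ε ≤ (p : ℝ) ^ ε := Real.rpow_le_rpow (by norm_num) hp2 hε.le
      have h3 : ((2 : ℝ) ^ ε) ^ a ≤ ((p : ℝ) ^ ε) ^ a := by gcongr
      have h4 : 1 + ε * Real.log 2 ≤ (2 : ℝ) ^ ε := by
        rw [Real.rpow_def_of_pos (by norm_num)]
        have := Real.add_one_le_exp (Real.log 2 * ε)
        linarith
      have hl2 : 1 / 2 ≤ Real.log 2 := by
        have := Real.log_two_gt_d9
        linarith
      have h5 : 1 + (a : ℝ) * (ε / 2) ≤ ((2 : ℝ) ^ ε) ^ a := by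
        have h6 : 1 + (a : ℝ) * (ε / 2) ≤ (1 + ε / 2) ^ a :=
          one_add_mul_le_pow (by linarith [hε]) a
        refine h6.trans ?_
        have : 1 + ε / 2 ≤ (2 : ℝ) ^ ε := by
          have : ε / 2 ≤ ε * Real.log 2 := by nlinarith
          linarith
        gcongr
      have h7 : ((a + 1 : ℕ) : ℝ) ≤ K * (1 + (a : ℝ) * (ε / 2)) := by
        rw [hK]
        push_cast
        have ha0 : (0 : ℝ) ≤ a := Nat.cast_nonneg a
        have e1 : (1 + 2 / ε) * (1 + (a : ℝ) * (ε / 2)) =
            1 + a * (ε / 2) + 2 / ε + a := by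
          field_simp
          ring
        rw [e1]
        have : 0 < 2 / ε := by positivity
        have : 0 ≤ (a : ℝ) * (ε / 2) := by positivity
        linarith
      calc ((a + 1 : ℕ) : ℝ) ≤ K * (1 + (a : ℝ) * (ε / 2)) := h7
        _ ≤ K * ((p : ℝ) ^ ε) ^ a := by
          apply mul_le_mul_of_nonneg_left (h5.trans h3) (by linarith)
    · rw [if_neg hlt, one_mul]
      have h1 : (2 : ℝ) ^ (1 / ε) ≤ p := by
        have h8 : (P : ℝ) ≤ p := by exact_mod_cast not_lt.1 hlt
        exact (Nat.le_ceil _).trans h8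
      have h2 : (2 : ℝ) ≤ (p : ℝ) ^ ε := by
        calc (2 : ℝ) = ((2 : ℝ) ^ (1 / ε)) ^ ε := by
              rw [← Real.rpow_mul (by norm_num), one_div, inv_mul_cancel₀ hε.ne', Real.rpow_one]
          _ ≤ (p : ℝ) ^ ε := Real.rpow_le_rpow (by positivity) h1 hε.le
      have h3 : ((a + 1 : ℕ) : ℝ) ≤ (2 : ℝ) ^ a := by
        have : a + 1 ≤ 2 ^ a := Nat.lt_two_pow_self
        exact_mod_cast this
      refine h3.trans ?_
      gcongr
  have hprod : ((∏ x ∈ n.primeFactors, (n.factorization x + 1) : ℕ) : ℝ) ≤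
      ∏ p ∈ n.primeFactors, ((if p < P then K else 1) * ((p : ℝ) ^ (n.factorization p)) ^ ε) := by
    rw [Nat.cast_prod]
    exact Finset.prod_le_prod (fun p _ => by positivity) key
  refine hprod.trans ?_
  rw [Finset.prod_mul_distrib]
  have h1 : ∏ p ∈ n.primeFactors, ((p : ℝ) ^ (n.factorization p)) ^ ε = (n : ℝ) ^ ε := by
    rw [Real.finsetProd_rpow _ _ (fun p _ => by positivity)]
    congr 1
    have h9 := Nat.prod_factorization_pow_eq_self hn0
    rw [Finsupp.prod, Nat.support_factorization] at h9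
    exact_mod_cast h9
  rw [h1]
  apply mul_le_mul_of_nonneg_right _ (by positivity)
  rw [Finset.prod_ite, Finset.prod_const, Finset.prod_const_one, mul_one]
  apply pow_le_pow_right₀ hK1
  calc (n.primeFactors.filter fun p => p < P).card ≤ (Finset.range P).card := by
        apply Finset.card_le_card
        intro p hp
        exact Finset.mem_range.2 (Finset.mem_filter.1 hp).2
    _ = P := Finset.card_range P

end Pool.Agent.H56.AD.DV
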