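import Pool.Agent.H45.AD.Stm4

set_option autoImplicit false

namespace Pool.Agent.H56.AD.RO

open Pool.Agent.H45.AD

/-- the square roots modulo `q ^ 2` of a residue prime to `q` -/
theorem t : StmtRO := by
  classical
  intro q a hq
  set R := (Finset.range (q ^ 2)).filter fun x : ℕ => (q : ℤ) ^ 2 ∣ (x : ℤ) ^ 2 - a ∧
      Nat.Coprime x q with hR
  rcases R.eq_empty_or_nonempty with hE | ⟨x₁, hx₁⟩
  · rw [hE, Finset.card_empty]
    exact Nat.zero_le _
  obtain ⟨h1r, h1d, h1c⟩ := Finset.mem_filter.1 hx₁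
  have hq2 : 0 < q ^ 2 := by positivity
  set f : ℕ → ℕ := fun x => Int.gcd ((x : ℤ) - x₁) ((q ^ 2 : ℕ) : ℤ) with hf
  have hmap : ∀ x ∈ R, f x ∈ (q ^ 2).divisors := by
    intro x _
    rw [Nat.mem_divisors]
    refine ⟨?_, hq2.ne'⟩
    have h0 : ((f x : ℕ) : ℤ) ∣ ((q ^ 2 : ℕ) : ℤ) :=
      Int.gcd_dvd_right ((x : ℤ) - x₁) ((q ^ 2 : ℕ) : ℤ)
    exact Int.natCast_dvd_natCast.1 h0
  -- two elements of a fibre
  have key : ∀ x ∈ R, ∀ y ∈ R, f x = f y → ((q ^ 2 : ℕ) : ℤ) ∣ 2 * ((x : ℤ) - y) := by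
    intro x hx y hy hxy
    obtain ⟨hxr, hxd, hxc⟩ := Finset.mem_filter.1 hx
    obtain ⟨hyr, hyd, hyc⟩ := Finset.mem_filter.1 hy
    set u : ℕ := f x with hu
    have hun : u ∣ q ^ 2 := Nat.dvd_of_mem_divisors (hmap x hx)
    have hu0 : 0 < u := Nat.pos_of_dvd_of_pos hun hq2
    obtain ⟨v, hv⟩ := hun
    have hux : (u : ℤ) ∣ (x : ℤ) - x₁ := Int.gcd_dvd_left _ _
    have huy : (u : ℤ) ∣ (y : ℤ) - x₁ := by
      rw [hxy]
      exact Int.gcd_dvd_left _ _
    -- `v ∣ x + x₁`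
    have hvx : ∀ z : ℕ, (q : ℤ) ^ 2 ∣ (z : ℤ) ^ 2 - a → f z = u → (v : ℤ) ∣ (z : ℤ) + x₁ := by
      intro z hz hfz
      have h2 : ((q ^ 2 : ℕ) : ℤ) ∣ ((z : ℤ) - x₁) * ((z : ℤ) + x₁) := by
        have h3 := dvd_sub hz h1d
        push_cast
        have e : (z : ℤ) ^ 2 - a - ((x₁ : ℤ) ^ 2 - a) = ((z : ℤ) - x₁) * ((z : ℤ) + x₁) := by ring
        rwa [e] at h3
      have h4 : ((q ^ 2 : ℕ) : ℤ) ∣ (Int.gcd ((z : ℤ) - x₁) ((q ^ 2 : ℕ) : ℤ) : ℤ) *
          ((z : ℤ) + x₁) := by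
        have h5 : ((q ^ 2 : ℕ) : ℤ) ∣ Int.gcd (((z : ℤ) - x₁) * ((z : ℤ) + x₁))
            (((q ^ 2 : ℕ) : ℤ) * ((z : ℤ) + x₁)) := by
          exact Int.dvd_coe_gcd h2 (Dvd.intro _ rfl)
        rw [Int.gcd_mul_right] at h5
        push_cast at h5 ⊢
        exact h5.trans (mul_dvd_mul_left _ ((abs_dvd _ _).2 dvd_rfl))
      have h7 : (Int.gcd ((z : ℤ) - x₁) ((q ^ 2 : ℕ) : ℤ) : ℕ) = u := hfz
      rw [h7, hv] at h4
      push_cast at h4
      exact (mul_dvd_mul_iff_left (by exact_mod_cast hu0.ne')).1 h4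
    have hv1 := hvx x hxd rfl
    have hv2 := hvx y hyd hxy.symm
    have hvxy : (v : ℤ) ∣ (x : ℤ) - y := by
      have := dvd_sub hv1 hv2
      have e : (x : ℤ) + x₁ - ((y : ℤ) + x₁) = (x : ℤ) - y := by ring
      rwa [e] at this
    have huxy : (u : ℤ) ∣ (x : ℤ) - y := by
      have := dvd_sub hux huy
      have e : (x : ℤ) - x₁ - ((y : ℤ) - x₁) = (x : ℤ) - y := by ring
      rwa [e] at this
    have hlcm : ((Nat.lcm u v : ℕ) : ℤ) ∣ (x : ℤ) - y := by
      exact Int.natCast_dvd.2 (Nat.lcm_dvd (Int.natCast_dvd.1 huxy) (Int.natCast_dvd.1 hvxy))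
    have hg : Nat.gcd u v ∣ 2 := by
      have g1 : ((Nat.gcd u v : ℕ) : ℤ) ∣ 2 * (x : ℤ) := by
        have a1 : ((Nat.gcd u v : ℕ) : ℤ) ∣ (x : ℤ) - x₁ :=
          (Int.natCast_dvd_natCast.2 (Nat.gcd_dvd_left u v)).trans hux
        have a2 : ((Nat.gcd u v : ℕ) : ℤ) ∣ (x : ℤ) + x₁ :=
          (Int.natCast_dvd_natCast.2 (Nat.gcd_dvd_right u v)).trans hv1
        have := dvd_add a1 a2
        have e : (x : ℤ) - x₁ + ((x : ℤ) + x₁) = 2 * x := by ring
        rwa [e] at this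
      have g2 : Nat.gcd u v ∣ 2 * x := by exact_mod_cast g1
      have g3 : Nat.Coprime (Nat.gcd u v) x := by
        have g4 : Nat.gcd u v ∣ q ^ 2 := (Nat.gcd_dvd_left u v).trans ⟨v, hv⟩
        exact Nat.Coprime.coprime_dvd_left g4 ((Nat.Coprime.pow_right 2 hxc).symm)
      exact g3.dvd_of_dvd_mul_right g2
    have hfin : ((q ^ 2 : ℕ) : ℤ) ∣ 2 * ((Nat.lcm u v : ℕ) : ℤ) := by
      have h8 : q ^ 2 ∣ 2 * Nat.lcm u v := by
        rw [hv, ← Nat.gcd_mul_lcm u v]
        exact mul_dvd_mul_right hg _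
      exact_mod_cast h8
    exact hfin.trans (mul_dvd_mul_left 2 hlcm)
  calc R.card ≤ ∑ u ∈ (q ^ 2).divisors, (R.filter fun x => f x = u).card := by
        rw [← Finset.card_eq_sum_card_fiberwise hmap]
    _ ≤ ∑ u ∈ (q ^ 2).divisors, 2 := by
        apply Finset.sum_le_sum
        intro u _
        set F := R.filter fun x => f x = u with hF
        rcases F.eq_empty_or_nonempty with hE | hne
        · rw [hE, Finset.card_empty]
          exact Nat.zero_le _
        set m := F.min' hne with hm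
        have hmF : m ∈ F := F.min'_mem hne
        have hsub : F ⊆ {m, m + q ^ 2 / 2} := by
          intro x hx
          rw [Finset.mem_insert, Finset.mem_singleton]
          have hle : m ≤ x := F.min'_le x hx
          obtain ⟨hxR, hxu⟩ := Finset.mem_filter.1 hx
          obtain ⟨hmR, hmu⟩ := Finset.mem_filter.1 hmF
          have h1 := key x hxR m hmR (hxu.trans hmu.symm)
          have hxlt : x < q ^ 2 := Finset.mem_range.1 (Finset.mem_filter.1 hxR).1
          have h2 : q ^ 2 ∣ 2 * (x - m) := by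
            have e : (2 * ((x : ℤ) - m)) = ((2 * (x - m) : ℕ) : ℤ) := by
              push_cast [Nat.cast_sub hle]
              ring
            rw [e] at h1
            exact_mod_cast h1
          obtain ⟨k, hk⟩ := h2
          have hk2 : k < 2 := by
            by_contra hcon
            push Not at hcon
            have : q ^ 2 * 2 ≤ q ^ 2 * k := Nat.mul_le_mul_left _ hcon
            omega
          interval_cases k
          · left; omega
          · right; omega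
        exact (Finset.card_le_card hsub).trans Finset.card_le_two
    _ = 2 * (q ^ 2).divisors.card := by
        rw [Finset.sum_const, smul_eq_mul, mul_comm]

end Pool.Agent.H56.AD.RO
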